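import Pool.Agent.Lib.H97W.FinH

/-!
# H97W, file FinQ: plane Hamiltonian subdrawings with exactly `2n - 3` edges, or 3-connected
-/

set_option autoImplicit false
set_option linter.unusedSectionVars false

open H53P SimpleDraw

namespace H97W

open Finset H98P H63F H63L

section

variable {V : Type*} [Fintype V] [DecidableEq V]

/-- An integral fractional Hamiltonian cycle is a Hamiltonian cycle; edges outside it can be removed. -/
theorem ham_exact (hV : 3 ≤ Fintype.card V) {G : Finset (Sym2 V)} {y : Sym2 V → ℝ} (h : FracHam G y)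
    (hi : ∀ e, y e = 0 ∨ y e = 1) {k : ℕ} (h1 : Fintype.card V ≤ k) (h2 : k ≤ G.card) :
    ∃ G' ⊆ G, G'.card = k ∧ ∃ (a : V) (c : (gr G').Walk a a), c.IsHamiltonianCycle := by
  obtain ⟨f, hf, h3, h4⟩ := H96H.ham_cycle hV h hi
  obtain ⟨E, hE⟩ : ∃ E : Finset (Sym2 V), E = univ.image fun i : Fin (Fintype.card V) =>
      if h : i.1 + 1 < Fintype.card V then s(f i, f ⟨i.1 + 1, h⟩)
      else s(f ⟨Fintype.card V - 1, by omega⟩, f ⟨0, by omega⟩) := ⟨_, rfl⟩
  have hEG : E ⊆ G := by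
    intro e he
    rw [hE, mem_image] at he
    obtain ⟨i, -, rfl⟩ := he
    split_ifs with h5
    · exact h3 i h5
    · exact h4
  have hEc : E.card ≤ k := by
    rw [hE]
    refine card_image_le.trans ?_
    rw [card_univ, Fintype.card_fin]
    exact h1
  obtain ⟨G', hG1, hG2, hG3⟩ := exists_subsuperset_card_eq hEG hEc h2
  have hl : ∀ v, s(v, v) ∉ G' := fun v hv => h.loop v (hG2 hv)
  have h5 : ∀ i : Fin (Fintype.card V), ∀ hi : i.1 + 1 < Fintype.card V, s(f i, f ⟨i.1 + 1, hi⟩) ∈ G' := by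
    intro i hi'
    apply hG1
    rw [hE, mem_image]
    exact ⟨i, mem_univ _, by rw [dif_pos hi']⟩
  have h6 : s(f ⟨Fintype.card V - 1, by omega⟩, f ⟨0, by omega⟩) ∈ G' := by
    apply hG1
    rw [hE, mem_image]
    refine ⟨⟨Fintype.card V - 1, by omega⟩, mem_univ _, ?_⟩
    rw [dif_neg]
    simp only [not_lt]
    omega
  have hb : Function.Bijective f := by
    rw [Fintype.bijective_iff_injective_and_card]
    exact ⟨hf, Fintype.card_fin _⟩
  refine ⟨G', hG2, hG3, ?_⟩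
  refine ham_of_list (List.ofFn f) (by rw [List.length_ofFn]; exact hV) (List.nodup_ofFn.2 hf)
    (fun v => ?_) ?_ (a := f ⟨0, by omega⟩) (b := f ⟨Fintype.card V - 1, by omega⟩) ?_ ?_ (adj_of hl h6)
  · obtain ⟨i, rfl⟩ := hb.2 v
    exact List.mem_ofFn.2 ⟨i, rfl⟩
  · rw [List.isChain_ofFn]
    intro i hi'
    exact adj_of hl (h5 ⟨i, by omega⟩ hi')
  · rw [List.head?_eq_getElem?, List.getElem?_ofFn, dif_pos (by omega)]
  · rw [List.getLast?_eq_getElem?, List.getElem?_ofFn, List.length_ofFn, dif_pos (by omega)]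

/-- Strictly 1-tough, without positivity of the weights. -/
theorem tough_strict_out {G : Finset (Sym2 V)} {y : Sym2 V → ℝ} (h : FracHam G y)
    (hs : ∀ S : Finset V, 2 ≤ S.card → 2 ≤ (univ \ S).card → 2 < cutw y S) {X : Finset V} (hX : 2 ≤ X.card)
    {a b : V} (hab : s(a, b) ∈ G) (haX : a ∉ X) (hbX : b ∉ X) {c : V → V}
    (hc : ∀ u, u ∉ X → ∀ v, v ∉ X → s(u, v) ∈ G → c u = c v) :
    ((univ \ X).image c).card + 1 ≤ X.card := by
  have hne : a ≠ b := fun h1 => h.loop a (by rw [← h1] at hab; exact hab)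
  have key := fun e => H56Z.key h.nonneg h.supp h.loop hc ((univ \ X).image c) e
  have h1 : ∑ i ∈ (univ \ X).image c, cutw y (H56Z.cls X c i) ≤ ∑ v ∈ X, cutw y {v} := by
    unfold cutw
    rw [sum_comm, sum_comm (s := X)]
    exact sum_le_sum fun e _ => key e
  have hcl : ∀ i ∈ (univ \ X).image c, 2 ≤ cutw y (H56Z.cls X c i) := by
    intro i hi
    obtain ⟨v, hv, rfl⟩ := mem_image.1 hi
    have hvX : v ∉ X := (mem_sdiff.1 hv).2
    apply h.cut
    · exact ⟨v, H56Z.mem_cls.2 ⟨hvX, rfl⟩⟩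
    · intro heq
      obtain ⟨s, hsX⟩ : X.Nonempty := card_pos.1 (by omega)
      have h2 : s ∈ H56Z.cls X c (c v) := heq ▸ mem_univ s
      exact (H56Z.mem_cls.1 h2).1 hsX
  have h3 : ∑ v ∈ X, cutw y {v} = 2 * (X.card : ℝ) := by
    rw [sum_congr rfl (fun v _ => h.vert v), sum_const, nsmul_eq_mul, mul_comm]
  have h4 : ∑ _i ∈ (univ \ X).image c, (2 : ℝ) < ∑ v ∈ X, cutw y {v} := by
    refine lt_of_lt_of_le (sum_lt_sum hcl ⟨c a, mem_image_of_mem c (mem_sdiff.2 ⟨mem_univ _, haX⟩), ?_⟩) h1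
    apply hs
    · have h5 : ({a, b} : Finset V) ⊆ H56Z.cls X c (c a) := by
        intro v hv
        rw [mem_insert, mem_singleton] at hv
        rw [H56Z.mem_cls]
        rcases hv with rfl | rfl
        · exact ⟨haX, rfl⟩
        · exact ⟨hbX, (hc a haX _ hbX hab).symm⟩
      have h6 := card_le_card h5
      rwa [card_pair hne] at h6
    · refine le_trans hX (card_le_card fun v hv => ?_)
      rw [mem_sdiff, H56Z.mem_cls]
      exact ⟨mem_univ _, fun h5 => h5.1 hv⟩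
  rw [sum_const, nsmul_eq_mul, h3] at h4
  have h5 : (((univ \ X).image c).card : ℝ) < (X.card : ℝ) := by linarith
  exact_mod_cast h5

/-- On three vertices `G` is complete. -/
theorem card_three (hV : Fintype.card V = 3) {G : Finset (Sym2 V)} {y : Sym2 V → ℝ} (h : FracHam G y) :
    G.card = 3 := by
  have h1 : G = univ.filter fun e => ¬ e.IsDiag := by
    ext e
    rw [mem_filter]
    constructor
    · intro he
      refine ⟨mem_univ _, ?_⟩
      induction e using Sym2.ind with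
      | _ a b =>
        rw [Sym2.mk_isDiag_iff]
        rintro rfl
        exact h.loop a he
    · rintro ⟨-, he⟩
      induction e using Sym2.ind with
      | _ a b =>
        rw [Sym2.mk_isDiag_iff] at he
        have h1 := cutw_pair (y := y) he
        have h2 : (univ \ ({a, b} : Finset V)).card = 1 := by
          rw [card_sdiff_of_subset (subset_univ _), card_univ, hV, card_pair he]
        obtain ⟨c, hc⟩ := card_eq_one.1 h2
        have h3 := cutw_comp y ({a, b} : Finset V)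
        rw [hc, h.vert] at h3
        rw [h.vert, h.vert, ← h3] at h1
        by_contra h5
        rw [h.supp _ h5] at h1
        linarith
  rw [h1]
  have h2 := Sym2.card_subtype_not_diag (α := V)
  rw [hV, Fintype.card_subtype] at h2
  rw [h2]
  rfl

end

/-- The second alternative. -/
theorem strict_all {n : ℕ} (hn : 4 ≤ n) {G : Finset (Sym2 (Fin n))} {y : Sym2 (Fin n) → ℝ} (h : FracHam G y)
    (hs : ∀ S : Finset (Fin n), 2 ≤ S.card → 2 ≤ (univ \ S).card → 2 < cutw y S) :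
    ((∀ a b, 0 ≤ y s(a, b)) ∧ (∀ a b, y s(a, b) = y s(b, a)) ∧ ∀ a b, y s(a, b) ≠ 0 → (gr G).Adj a b) ∧
      (∀ X : Finset (Fin n), X.card ≤ 2 → ((gr G).induce {v | v ∉ X}).Connected) ∧
      (∀ a b, y s(a, b) < 1) ∧
      (∀ a, ∑ b, y s(a, b) = 2) ∧
      (∀ S : Finset (Fin n), 2 ≤ S.card → 2 ≤ Sᶜ.card → 2 < ∑ a ∈ S, ∑ b ∈ Sᶜ, y s(a, b)) ∧
      (∀ X : Finset (Fin n), 2 ≤ X.card → (∃ a b, (gr G).Adj a b ∧ a ∉ X ∧ b ∉ X) →
        Nat.card ((gr G).induce {v | v ∉ X}).ConnectedComponent < X.card) ∧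
      (∀ u, ∃ w : (gr G).Walk u u, (∀ v, 1 ≤ w.support.tail.count v ∧ w.support.tail.count v ≤ 2) ∧
        2 * w.length + 2 ≤ 3 * n) ∧
      (∃ F ≤ gr G, (∀ v, (F.neighborSet v).ncard ≤ 2) ∧ 8 * n ≤ 9 * F.edgeSet.ncard) := by
  have hV : 3 ≤ Fintype.card (Fin n) := by rw [Fintype.card_fin]; omega
  have hV4 : 4 ≤ Fintype.card (Fin n) := by rw [Fintype.card_fin]; exact hn
  refine ⟨⟨fun a b => h.nonneg _,
    fun a b => congrArg y Sym2.eq_swap, fun a b h1 => adj_of h.loop (by_contra fun h7 => h1 (h.supp _ h7))⟩,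
    fun X hX => connected_minus hV4 h hs hX, fun a b => ?_, fun a => ?_, fun S h1 h2 => ?_,
    fun X hX hab => ?_, fun u => ?_, ?_⟩
  · by_cases hab : a = b
    · subst hab
      rw [h.supp _ (h.loop a)]
      exact zero_lt_one
    · exact weight_lt hV4 h hs hab
  · have h7 := h.vert a
    rw [cutw_vertex (h.supp _ (h.loop a))] at h7
    exact h7
  · have h3 := hs S h1 (by rw [← compl_eq_univ_sdiff]; exact h2)
    rw [cutw_compl] at h3
    exact h3
  · obtain ⟨a, b, hab, haX, hbX⟩ := hab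
    rw [SimpleGraph.fromEdgeSet_adj] at hab
    have h1 := comp_le' (G := G) (k := X.card - 1) (S := X) fun c hc => by
      have h2 := tough_strict_out h hs hX hab.1 haX hbX hc
      omega
    omega
  · obtain ⟨w, h1, h2⟩ := H91E.two_walk_of_join h hV (fun O hO => H13W.join h O hO) u
    rw [Fintype.card_fin] at h2
    exact ⟨w, h1, h2⟩
  · obtain ⟨F, h1, h2, h3⟩ := H44Z.two_matching h hV
    have hl : ∀ v, s(v, v) ∉ F := fun v hv => h.loop v (h1 hv)
    rw [Fintype.card_fin] at h3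
    refine ⟨gr F, SimpleGraph.fromEdgeSet_mono (coe_subset.2 h1), fun v => ?_, ?_⟩
    · rw [ncard_neighbors hl]
      exact h2 v
    · rw [ncard_edges hl]
      exact h3

/-- The second alternative with positive weights on `G`. -/
theorem strict_pos {n : ℕ} (hn : 4 ≤ n) (D : SimpleDrawing n) {G : Finset (Sym2 (Fin n))}
    {y : Sym2 (Fin n) → ℝ} (hG : Plane (crossT (table D)) G) (h : FracHam G y)
    (hs : ∀ S : Finset (Fin n), 2 ≤ S.card → 2 ≤ (univ \ S).card → 2 < cutw y S) :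
    ∃ (G : SimpleGraph (Fin n)) (y : Fin n → Fin n → ℝ), D.Plane G ∧
      ((∀ a b, 0 ≤ y a b) ∧ (∀ a b, y a b = y b a) ∧ ∀ a b, y a b ≠ 0 → G.Adj a b) ∧
      (∀ X : Finset (Fin n), X.card ≤ 2 → (G.induce {v | v ∉ X}).Connected) ∧
      (∀ a b, G.Adj a b → 0 < y a b ∧ y a b < 1) ∧
      (∀ a, ∑ b, y a b = 2) ∧
      (∀ S : Finset (Fin n), 2 ≤ S.card → 2 ≤ Sᶜ.card → 2 < ∑ a ∈ S, ∑ b ∈ Sᶜ, y a b) ∧
      (∀ X : Finset (Fin n), 2 ≤ X.card → (∃ a b, G.Adj a b ∧ (a ∈ X ↔ b ∈ X)) →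
        Nat.card (G.induce {v | v ∉ X}).ConnectedComponent < X.card) ∧
      (∀ u, ∃ w : G.Walk u u, (∀ v, 1 ≤ w.support.tail.count v ∧ w.support.tail.count v ≤ 2) ∧
        2 * w.length + 2 ≤ 3 * n) ∧
      ∃ F ≤ G, (∀ v, (F.neighborSet v).ncard ≤ 2) ∧ 8 * n ≤ 9 * F.edgeSet.ncard := by
  classical
  obtain ⟨G', hG'⟩ : ∃ G', G' = G.filter fun e => y e ≠ 0 := ⟨_, rfl⟩
  have h1 : FracHam G' y := by
    rw [hG']
    refine ⟨h.nonneg, fun e he => ?_, fun v hv => h.loop v (mem_filter.1 hv).1, h.vert, h.cut⟩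
    by_contra h5
    exact he (mem_filter.2 ⟨by_contra fun h6 => h5 (h.supp _ h6), h5⟩)
  have hp : ∀ e ∈ G', 0 < y e := fun e he => by
    rw [hG'] at he
    exact lt_of_le_of_ne (h.nonneg e) (Ne.symm (mem_filter.1 he).2)
  have hP : Plane (crossT (table D)) G' := by
    rw [hG']
    exact fun e he f hf => hG e (mem_filter.1 he).1 f (mem_filter.1 hf).1
  have hV : 3 ≤ Fintype.card (Fin n) := by rw [Fintype.card_fin]; omega
  have hV4 : 4 ≤ Fintype.card (Fin n) := by rw [Fintype.card_fin]; exact hn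
  obtain ⟨f1, f2, f3, f4, f5, -, f7, f8⟩ := strict_all hn h1 hs
  refine ⟨gr G', fun a b => y s(a, b), plane_of D hP, f1, f2, fun a b hab => ?_, f4, f5, fun X hX hab => ?_,
    f7, f8⟩
  · rw [SimpleGraph.fromEdgeSet_adj] at hab
    exact ⟨hp _ hab.1, f3 a b⟩
  · obtain ⟨a, b, hab, habX⟩ := hab
    rw [SimpleGraph.fromEdgeSet_adj] at hab
    have h1 := comp_le' (G := G') (k := X.card - 1) (S := X) fun c hc => by
      have h2 := tough_strict h1 hp hs hX hab.1 habX hc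
      omega
    omega

/-- H+: exactly `2n - 3` edges and a Hamiltonian cycle, or the strict weights. -/
theorem plus_or {n : ℕ} (hn : 3 ≤ n) (D : SimpleDrawing n)
    (h3 : ∃ (G : Finset (Sym2 (Fin n))) (y : Sym2 (Fin n) → ℝ), Plane (crossT (table D)) G ∧ FracHam G y)
    (h4 : 4 ≤ n →
      (∃ (G : Finset (Sym2 (Fin n))) (y : Sym2 (Fin n) → ℝ), Plane (crossT (table D)) G ∧ FracHam G y ∧
        (∀ e, y e = 0 ∨ y e = 1) ∧ 2 * Fintype.card (Fin n) ≤ G.card + 3) ∨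
      ∃ (G : Finset (Sym2 (Fin n))) (y : Sym2 (Fin n) → ℝ), Plane (crossT (table D)) G ∧ FracHam G y ∧
        ∀ S : Finset (Fin n), 2 ≤ S.card → 2 ≤ (univ \ S).card → 2 < cutw y S) :
    (∃ G : SimpleGraph (Fin n), D.Plane G ∧ G.edgeSet.ncard = 2 * n - 3 ∧
      ∃ (a : Fin n) (c : G.Walk a a), c.IsHamiltonianCycle) ∨
    ∃ (G : SimpleGraph (Fin n)) (y : Fin n → Fin n → ℝ), D.Plane G ∧
      ((∀ a b, 0 ≤ y a b) ∧ (∀ a b, y a b = y b a) ∧ ∀ a b, y a b ≠ 0 → G.Adj a b) ∧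
      (∀ X : Finset (Fin n), X.card ≤ 2 → (G.induce {v | v ∉ X}).Connected) ∧
      (∀ a b, G.Adj a b → 0 < y a b ∧ y a b < 1) ∧
      (∀ a, ∑ b, y a b = 2) ∧
      (∀ S : Finset (Fin n), 2 ≤ S.card → 2 ≤ Sᶜ.card → 2 < ∑ a ∈ S, ∑ b ∈ Sᶜ, y a b) ∧
      (∀ X : Finset (Fin n), 2 ≤ X.card → (∃ a b, G.Adj a b ∧ (a ∈ X ↔ b ∈ X)) →
        Nat.card (G.induce {v | v ∉ X}).ConnectedComponent < X.card) ∧
      (∀ u, ∃ w : G.Walk u u, (∀ v, 1 ≤ w.support.tail.count v ∧ w.support.tail.count v ≤ 2) ∧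
        2 * w.length + 2 ≤ 3 * n) ∧
      ∃ F ≤ G, (∀ v, (F.neighborSet v).ncard ≤ 2) ∧ 8 * n ≤ 9 * F.edgeSet.ncard := by
  classical
  have hV : 3 ≤ Fintype.card (Fin n) := by rw [Fintype.card_fin]; exact hn
  have first : ∀ (G : Finset (Sym2 (Fin n))) (y : Sym2 (Fin n) → ℝ), Plane (crossT (table D)) G →
      FracHam G y → (∀ e, y e = 0 ∨ y e = 1) → 2 * n - 3 ≤ G.card →
      ∃ G : SimpleGraph (Fin n), D.Plane G ∧ G.edgeSet.ncard = 2 * n - 3 ∧
        ∃ (a : Fin n) (c : G.Walk a a), c.IsHamiltonianCycle := by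
    intro G y g1 g2 g3 g4
    obtain ⟨G', e1, e2, e3⟩ := ham_exact hV g2 g3 (k := 2 * n - 3) (by rw [Fintype.card_fin]; omega) g4
    refine ⟨gr G', plane_of D fun e he f hf => g1 e (e1 he) f (e1 hf), ?_, e3⟩
    rw [ncard_edges fun v hv => g2.loop v (e1 hv), e2]
  rcases Nat.lt_or_ge n 4 with h | h
  · obtain ⟨G, y, g1, g2⟩ := h3
    have hc : Fintype.card (Fin n) = 3 := by rw [Fintype.card_fin]; omega
    exact Or.inl (first G y g1 g2 (integral_three hc g2) (by rw [card_three hc g2]; omega))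
  · rcases h4 h with ⟨G, y, g1, g2, g3, g4⟩ | ⟨G, y, g1, g2, g3⟩
    · rw [Fintype.card_fin] at g4
      exact Or.inl (first G y g1 g2 g3 (by omega))
    · exact Or.inr (strict_pos h D g1 g2 g3)

/-- The exact form: exactly `2n - 3` edges in both alternatives. -/
theorem exact_or {n : ℕ} (hn : 3 ≤ n) (D : SimpleDrawing n)
    (h3 : ∃ (G : Finset (Sym2 (Fin n))) (y : Sym2 (Fin n) → ℝ), Plane (crossT (table D)) G ∧ FracHam G y)
    (h4 : 4 ≤ n → ∃ (G : Finset (Sym2 (Fin n))) (y : Sym2 (Fin n) → ℝ), Plane (crossT (table D)) G ∧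
      FracHam G y ∧ G.card + 3 = 2 * Fintype.card (Fin n) ∧ ((∀ e, y e = 0 ∨ y e = 1) ∨
        ∀ S : Finset (Fin n), 2 ≤ S.card → 2 ≤ (univ \ S).card → 2 < cutw y S)) :
    ∃ G : SimpleGraph (Fin n), D.Plane G ∧ G.edgeSet.ncard = 2 * n - 3 ∧
      ((∃ (a : Fin n) (c : G.Walk a a), c.IsHamiltonianCycle) ∨
      (∃ y : Fin n → Fin n → ℝ, ((∀ a b, 0 ≤ y a b) ∧ (∀ a b, y a b = y b a) ∧ ∀ a b, y a b ≠ 0 → G.Adj a b) ∧
        (∀ a b, y a b < 1) ∧ (∀ a, ∑ b, y a b = 2) ∧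
        (∀ S : Finset (Fin n), 2 ≤ S.card → 2 ≤ Sᶜ.card → 2 < ∑ a ∈ S, ∑ b ∈ Sᶜ, y a b)) ∧
      (∀ X : Finset (Fin n), X.card ≤ 2 → (G.induce {v | v ∉ X}).Connected) ∧
      (∀ X : Finset (Fin n), 2 ≤ X.card → (∃ a b, G.Adj a b ∧ a ∉ X ∧ b ∉ X) →
        Nat.card (G.induce {v | v ∉ X}).ConnectedComponent < X.card) ∧
      (∀ u, ∃ w : G.Walk u u, (∀ v, 1 ≤ w.support.tail.count v ∧ w.support.tail.count v ≤ 2) ∧
        2 * w.length + 2 ≤ 3 * n) ∧
      ∃ F ≤ G, (∀ v, (F.neighborSet v).ncard ≤ 2) ∧ 8 * n ≤ 9 * F.edgeSet.ncard) := by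
  have hV : 3 ≤ Fintype.card (Fin n) := by rw [Fintype.card_fin]; exact hn
  rcases Nat.lt_or_ge n 4 with h | h
  · obtain ⟨G, y, g1, g2⟩ := h3
    have hc : Fintype.card (Fin n) = 3 := by rw [Fintype.card_fin]; omega
    refine ⟨gr G, plane_of D g1, ?_, Or.inl (ham_walk hV g2 (integral_three hc g2))⟩
    rw [ncard_edges g2.loop, card_three hc g2]
    omega
  · obtain ⟨G, y, g1, g2, g3, g4⟩ := h4 h
    rw [Fintype.card_fin] at g3
    refine ⟨gr G, plane_of D g1, ?_, ?_⟩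
    · rw [ncard_edges g2.loop]
      omega
    · rcases g4 with g4 | g4
      · exact Or.inl (ham_walk hV g2 g4)
      · obtain ⟨f1, f2, f3, f4, f5, f6, f7, f8⟩ := strict_all h g2 g4
        exact Or.inr ⟨⟨fun a b => y s(a, b), f1, f3, f4, f5⟩, f2, f6, f7, f8⟩

end H97W
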