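import Pool.Agent.Lib.H97W.Fin
import Pool.Agent.Lib.H63L.FIN

/-!
# H97W, file FinD: Theorem G and its consequences in the language of simple drawings
-/

set_option autoImplicit false
set_option linter.unusedSectionVars false

open H53P SimpleDraw

namespace H97W

open Finset H98P H63F H63L

theorem plane_of {n : ℕ} (D : SimpleDrawing n) {G : Finset (Sym2 (Fin n))}
    (hG : Plane (crossT (table D)) G) : D.Plane (gr G) := by
  apply H63L.plane_of_table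
  intro i j k l hij hkl
  rw [← Bool.not_eq_true, ← crossT_mk]
  rw [SimpleGraph.fromEdgeSet_adj] at hij hkl
  exact hG _ hij.1 _ hkl.1

section

variable {V : Type*} [Fintype V] [DecidableEq V]

theorem adj_of {G : Finset (Sym2 V)} (hl : ∀ v, s(v, v) ∉ G) {a b : V} (h : s(a, b) ∈ G) :
    (gr G).Adj a b := by
  rw [SimpleGraph.fromEdgeSet_adj]
  refine ⟨mem_coe.2 h, ?_⟩
  rintro rfl
  exact hl a h

theorem cutw_compl (y : Sym2 V → ℝ) (S : Finset V) : cutw y S = ∑ a ∈ S, ∑ b ∈ Sᶜ, y s(a, b) := by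
  rw [H56Z.cutw_pairs, compl_eq_univ_sdiff]

theorem cutw_vertex {y : Sym2 V → ℝ} {v : V} (hy : y s(v, v) = 0) :
    cutw y {v} = ∑ b, y s(v, b) := by
  rw [cutw_compl, sum_singleton, ← sum_compl_add_sum ({v} : Finset V) fun b => y s(v, b),
    sum_singleton, hy, add_zero]

end

/-- Theorem G in the language of simple drawings. -/
theorem weights {n : ℕ} (D : SimpleDrawing n)
    (hG : 2 ≤ n → ∀ x0 : Sym2 (Fin n) → ℝ, (∀ e, 0 ≤ x0 e) → (∀ v, x0 s(v, v) = 0) →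
      ∃ (G : Finset (Sym2 (Fin n))) (x : Sym2 (Fin n) → ℝ), Plane (crossT (table D)) G ∧
        (∀ v, s(v, v) ∉ G) ∧ (∀ e, 0 ≤ x e) ∧ (∀ e, e ∉ G → x e = 0) ∧
        (∀ v, cutw x {v} = cutw x0 {v}) ∧ ∀ (S : Finset (Fin n)) (u v : Fin n), u ∈ S → v ∉ S →
          ∃ T : Finset (Fin n), u ∈ T ∧ v ∉ T ∧ cutw x0 T ≤ cutw x S)
    {x₀ : Fin n → Fin n → ℝ} (h0 : ∀ a b, 0 ≤ x₀ a b) (hs : ∀ a b, x₀ a b = x₀ b a)
    (hl : ∀ a, x₀ a a = 0) :
    ∃ (G : SimpleGraph (Fin n)) (x : Fin n → Fin n → ℝ), D.Plane G ∧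
      ((∀ a b, 0 ≤ x a b) ∧ (∀ a b, x a b = x b a) ∧ ∀ a b, x a b ≠ 0 → G.Adj a b) ∧
      (∀ a, ∑ b, x a b = ∑ b, x₀ a b) ∧
      ∀ (S : Finset (Fin n)) (u v : Fin n), u ∈ S → v ∉ S → ∃ T : Finset (Fin n), u ∈ T ∧ v ∉ T ∧
        ∑ a ∈ T, ∑ b ∈ Tᶜ, x₀ a b ≤ ∑ a ∈ S, ∑ b ∈ Sᶜ, x a b := by
  rcases Nat.lt_or_ge n 2 with hn | hn
  · have hsub : ∀ a b : Fin n, a = b := fun a b => Fin.ext (by omega)
    have hx : ∀ a b, x₀ a b = 0 := fun a b => by rw [hsub b a]; exact hl a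
    refine ⟨⊥, x₀, fun i j k l h => absurd (hsub i j) h.ne, ⟨h0, hs, fun a b h => absurd (hx a b) h⟩,
      fun a => rfl, fun S u v _ _ => ⟨S, by assumption, by assumption, le_refl _⟩⟩
  · obtain ⟨G, x, h1, h2, h3, h4, h5, h6⟩ := hG hn (Sym2.lift ⟨x₀, hs⟩)
      (fun e => Sym2.ind (fun a b => h0 a b) e) (fun v => hl v)
    refine ⟨gr G, fun a b => x s(a, b), plane_of D h1, ⟨fun a b => h3 _, fun a b => congrArg x Sym2.eq_swap,
      fun a b h => adj_of h2 (by_contra fun h7 => h (h4 _ h7))⟩, fun a => ?_, fun S u v hu hv => ?_⟩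
    · have h7 := h5 a
      rw [cutw_vertex (h4 _ (h2 a)), cutw_vertex (hl a)] at h7
      exact h7
    · obtain ⟨T, hT1, hT2, hT3⟩ := h6 S u v hu hv
      rw [cutw_compl, cutw_compl] at hT3
      exact ⟨T, hT1, hT2, hT3⟩

/-- The consequences of a fractional Hamiltonian cycle in the language of simple drawings. -/
theorem hamiltonian {n : ℕ} (hn : 3 ≤ n) (D : SimpleDrawing n) {G : Finset (Sym2 (Fin n))}
    {y : Sym2 (Fin n) → ℝ} (hG : Plane (crossT (table D)) G) (h : FracHam G y) :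
    ∃ (G : SimpleGraph (Fin n)) (y : Fin n → Fin n → ℝ), D.Plane G ∧
      ((∀ a b, 0 ≤ y a b) ∧ (∀ a b, y a b = y b a) ∧ ∀ a b, y a b ≠ 0 → G.Adj a b) ∧
      (∀ a, ∑ b, y a b = 2) ∧
      (∀ S : Finset (Fin n), S.Nonempty → S ≠ univ → 2 ≤ ∑ a ∈ S, ∑ b ∈ Sᶜ, y a b) ∧
      (∀ S : Finset (Fin n), S.Nonempty →
        Nat.card (G.induce {v | v ∉ S}).ConnectedComponent ≤ S.card) ∧
      (Even n → ∃ M : G.Subgraph, M.IsPerfectMatching) ∧
      (Odd n → ∀ v, ∃ M : G.Subgraph, M.IsMatching ∧ M.verts = {v}ᶜ) ∧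
      ∀ u v, ∃ T ≤ G, T.IsTree ∧ ∀ w,
        (T.neighborSet w).ncard + (if w = u then 1 else 0) + (if w = v then 1 else 0) ≤ 3 := by
  have hne : Nonempty (Fin n) := ⟨⟨0, by omega⟩⟩
  have ht := tough h
  have hc := crossing_edge h
  refine ⟨gr G, fun a b => y s(a, b), plane_of D hG, ⟨fun a b => h.nonneg _,
    fun a b => congrArg y Sym2.eq_swap, fun a b h1 => adj_of h.loop (by_contra fun h7 => h1 (h.supp _ h7))⟩,
    fun a => ?_, fun S h1 h2 => ?_, fun S h1 => ?_, fun he => ?_, fun ho v => ?_, fun u v => tree ht hc u v⟩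
  · have h7 := h.vert a
    rw [cutw_vertex (h.supp _ (h.loop a))] at h7
    exact h7
  · have h3 := h.cut S h1 h2
    rw [cutw_compl] at h3
    exact h3
  · exact comp_le ht h1
  · exact perfect_even h.loop ht hc (by rw [Fintype.card_fin]; exact he)
  · exact perfect_odd h.loop ht (by rw [Fintype.card_fin]; exact ho) v

/-- Plane multigraphs with prescribed degrees in the language of simple drawings. -/
theorem multigraph {n : ℕ} (D : SimpleDrawing n) {b : Fin n → ℕ} {m : Sym2 (Fin n) → ℕ}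
    (h1 : ∀ e f, m e ≠ 0 → m f ≠ 0 → ¬ crossT (table D) e f) (h2 : ∀ v, m s(v, v) = 0)
    (h3 : ∀ v, ∑ e with v ∈ e, m e = b v) :
    ∃ (G : SimpleGraph (Fin n)) (m : Fin n → Fin n → ℕ), D.Plane G ∧ (∀ a b, m a b = m b a) ∧
      (∀ a b, m a b ≠ 0 → G.Adj a b) ∧ ∀ a, ∑ c, m a c = b a := by
  classical
  refine ⟨gr (univ.filter fun e => m e ≠ 0), fun a b => m s(a, b), plane_of D ?_,
    fun a b => congrArg m Sym2.eq_swap, fun a b h => adj_of ?_ (mem_filter.2 ⟨mem_univ _, h⟩),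
    fun a => ?_⟩
  · intro e he f hf
    exact h1 e f (mem_filter.1 he).2 (mem_filter.1 hf).2
  · intro v hv
    exact (mem_filter.1 hv).2 (h2 v)
  · rw [← h3 a]
    have h4 : (univ.filter fun e : Sym2 (Fin n) => a ∈ e) = univ.image fun c => s(a, c) := by
      ext e
      rw [mem_filter, mem_image]
      constructor
      · rintro ⟨-, h⟩
        obtain ⟨c, rfl⟩ := Sym2.mem_iff_exists.1 h
        exact ⟨c, mem_univ _, rfl⟩
      · rintro ⟨c, -, rfl⟩
        exact ⟨mem_univ _, Sym2.mem_mk_left _ _⟩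
    rw [h4, sum_image fun c _ d _ h => Sym2.congr_right.1 h]

end H97W
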