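import Pool.Agent.Lib.H63F.T1a
import Pool.Agent.Lib.H63F.T1b
import Pool.Agent.Lib.H56Z.X0
import Pool.Agent.Lib.H59T.Win

/-!
# H97W, file Fin: what a fractional Hamiltonian cycle gives

`G` a set of pairs, `y` a fractional Hamiltonian cycle on `G` (`H63F.FracHam`): `G` is connected, `G - S` has at most
`|S|` components, `G` has (near-)perfect matchings and spanning trees of maximum degree at most 3.
-/

set_option autoImplicit false
set_option linter.unusedSectionVars false

namespace H97W

open Finset H98P H63F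

variable {V : Type*} [Fintype V] [DecidableEq V]

/-- the graph with the edge set `G` -/
abbrev gr (G : Finset (Sym2 V)) : SimpleGraph V := SimpleGraph.fromEdgeSet (G : Set (Sym2 V))

theorem crossing_edge {G : Finset (Sym2 V)} {y : Sym2 V → ℝ} (h : FracHam G y) (S : Finset V)
    (hS : S.Nonempty) (hS' : S ≠ univ) : ∃ a ∈ S, ∃ b, b ∉ S ∧ s(a, b) ∈ G := by
  by_contra hc
  push Not at hc
  have h1 := h.cut S hS hS'
  rw [H56Z.cutw_pairs] at h1
  have h2 : ∑ a ∈ S, ∑ b ∈ univ \ S, y s(a, b) = 0 :=
    sum_eq_zero fun a ha => sum_eq_zero fun b hb => h.supp _ (hc a ha b (mem_sdiff.1 hb).2)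
  linarith

theorem connected [Nonempty V] {G : Finset (Sym2 V)}
    (hcon : ∀ S : Finset V, S.Nonempty → S ≠ univ → ∃ a ∈ S, ∃ b, b ∉ S ∧ s(a, b) ∈ G) :
    (gr G).Connected := by
  classical
  refine { preconnected := ?_, nonempty := inferInstance }
  intro u v
  by_contra hn
  have hu : u ∈ univ.filter fun w => (gr G).Reachable u w := by
    rw [mem_filter]
    exact ⟨mem_univ _, SimpleGraph.Reachable.refl u⟩
  have hv : v ∉ univ.filter fun w => (gr G).Reachable u w := by
    rw [mem_filter]
    exact fun h => hn h.2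
  obtain ⟨a, ha, b, hb, hab⟩ := hcon _ ⟨u, hu⟩ fun h => hv (by rw [h]; exact mem_univ v)
  apply hb
  rw [mem_filter] at ha ⊢
  refine ⟨mem_univ _, ha.2.trans (SimpleGraph.Adj.reachable ?_)⟩
  rw [SimpleGraph.fromEdgeSet_adj]
  refine ⟨mem_coe.2 hab, ?_⟩
  rintro rfl
  exact hb (mem_filter.2 ⟨mem_univ _, ha.2⟩)

/-- the number of components of `G - S` -/
theorem comp_le {G : Finset (Sym2 V)} {k : ℕ} (ht : Tough G k) {S : Finset V} (hS : S.Nonempty) :
    Nat.card ((gr G).induce {v | v ∉ S}).ConnectedComponent ≤ S.card + k := by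
  classical
  obtain ⟨H, hH⟩ : ∃ H, H = (gr G).induce {v | v ∉ S} := ⟨_, rfl⟩
  rw [← hH]
  have key := ht S hS (fun v => if h : v ∉ S then (Quot.out (H.connectedComponentMk ⟨v, h⟩)).1 else v) ?_
  · refine le_trans ?_ key
    have h1 : Set.range (fun C : H.ConnectedComponent => (Quot.out C).1) ⊆
        (((univ \ S).image fun v => if h : v ∉ S then (Quot.out (H.connectedComponentMk ⟨v, h⟩)).1
          else v : Finset V) : Set V) := by
      rintro _ ⟨C, rfl⟩
      rw [mem_coe, mem_image]
      refine ⟨(Quot.out C).1, mem_sdiff.2 ⟨mem_univ _, (Quot.out C).2⟩, ?_⟩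
      have h2 : (Quot.out C).1 ∉ S := (Quot.out C).2
      simp only [h2, not_false_eq_true, dif_pos]
      have h3 : H.connectedComponentMk ⟨(Quot.out C).1, h2⟩ = C := by
        have : (⟨(Quot.out C).1, h2⟩ : {v | v ∉ S}) = Quot.out C := Subtype.ext rfl
        rw [this]
        exact Quot.out_eq C
      rw [h3]
    have h2 : Function.Injective fun C : H.ConnectedComponent => (Quot.out C).1 := by
      intro C C' hC
      have h3 : Quot.out C = Quot.out C' := Subtype.ext hC
      rw [← Quot.out_eq C, h3, Quot.out_eq]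
    rw [← Set.ncard_coe_finset, ← Nat.card_coe_set_eq]
    calc Nat.card H.ConnectedComponent
        = Nat.card (Set.range fun C : H.ConnectedComponent => (Quot.out C).1) :=
          (Nat.card_range_of_injective h2).symm
      _ ≤ _ := by
          rw [Nat.card_coe_set_eq, Nat.card_coe_set_eq]
          exact Set.ncard_le_ncard h1 (Set.toFinite _)
  · intro u hu v hv huv
    simp only [hu, hv, not_false_eq_true, dif_pos]
    by_cases h : u = v
    · subst h
      rfl
    · have h1 : H.connectedComponentMk ⟨u, hu⟩ = H.connectedComponentMk ⟨v, hv⟩ := by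
        apply SimpleGraph.ConnectedComponent.sound
        apply SimpleGraph.Adj.reachable
        rw [hH, SimpleGraph.comap_adj]
        change (gr G).Adj u v
        rw [SimpleGraph.fromEdgeSet_adj]
        exact ⟨mem_coe.2 huv, h⟩
      rw [h1]

/-- spanning trees of maximum degree at most 3, also after one more edge `uv` -/
theorem tree [Nonempty V] {G : Finset (Sym2 V)} (ht : Tough G 0)
    (hcon : ∀ S : Finset V, S.Nonempty → S ≠ univ → ∃ a ∈ S, ∃ b, b ∉ S ∧ s(a, b) ∈ G) (u v : V) :
    ∃ T ≤ gr G, T.IsTree ∧ ∀ w,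
      (T.neighborSet w).ncard + (if w = u then 1 else 0) + (if w = v then 1 else 0) ≤ 3 := by
  classical
  have key : ∀ (S : Finset V) (g : V → V), S.Nonempty →
      (∀ x y, x ∉ S → y ∉ S → (gr G).Adj x y → g x = g y) → ((((univ \ S).image g).card : ℕ) : ℤ) ≤
      ∑ s ∈ S, (((3 - ((if s = u then 1 else 0) + (if s = v then 1 else 0)) : ℕ) : ℤ) - 2) + 2 := by
    intro S g hS hg
    have h1 := ht S hS g fun a ha b hb hab => by
      by_cases h : a = b
      · rw [h]
      · refine hg a b ha hb ?_
        rw [SimpleGraph.fromEdgeSet_adj]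
        exact ⟨mem_coe.2 hab, h⟩
    have h2 : ∀ s ∈ S, (((3 - ((if s = u then 1 else 0) + (if s = v then 1 else 0)) : ℕ) : ℤ) - 2) =
        1 - (if s = u then 1 else 0) - (if s = v then 1 else 0) := by
      intro s _
      split_ifs <;> norm_num
    rw [sum_congr rfl h2, sum_sub_distrib, sum_sub_distrib, sum_ite_eq', sum_ite_eq', sum_const]
    have h3 : ((((univ \ S).image g).card : ℕ) : ℤ) ≤ S.card := by exact_mod_cast h1
    split_ifs <;> simp only [nsmul_eq_mul, mul_one] <;> linarith
  obtain ⟨T, hT, hT1, hT2⟩ := Pool.Agent.Lib.H59T.win_f (gr G) (connected hcon)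
    (fun w => 3 - ((if w = u then 1 else 0) + (if w = v then 1 else 0))) key
  refine ⟨T, hT, hT1, fun w => ?_⟩
  have h1 := hT2 w
  split_ifs at h1 ⊢ <;> omega

end H97W
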