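import Pool.Agent.Lib.H97W.FinD
import Pool.Agent.Lib.H13W.J
import Pool.Agent.Lib.H91E.E3
import Pool.Agent.Lib.H50E.F
import Pool.Agent.Lib.H44Z.M4

/-!
# H97W, file FinE: all consequences of a fractional Hamiltonian cycle, language of simple drawings
-/

set_option autoImplicit false
set_option linter.unusedSectionVars false

open H53P SimpleDraw

namespace H97W

open Finset H98P H63F H63L

section

variable {V : Type*} [Fintype V] [DecidableEq V]

theorem ncard_neighbors {F : Finset (Sym2 V)} (hl : ∀ v, s(v, v) ∉ F) (v : V) :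
    ((gr F).neighborSet v).ncard = (F.filter fun e => v ∈ e).card := by
  classical
  have h1 : (fun w => s(v, w)) '' (gr F).neighborSet v = ((F.filter fun e => v ∈ e : Finset (Sym2 V)) :
      Set (Sym2 V)) := by
    ext e
    constructor
    · rintro ⟨w, hw, rfl⟩
      rw [SimpleGraph.mem_neighborSet, SimpleGraph.fromEdgeSet_adj] at hw
      rw [mem_coe, mem_filter]
      exact ⟨mem_coe.1 hw.1, Sym2.mem_mk_left _ _⟩
    · intro he
      rw [mem_coe, mem_filter] at he
      obtain ⟨w, rfl⟩ := Sym2.mem_iff_exists.1 he.2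
      exact ⟨w, adj_of hl he.1, rfl⟩
  rw [← Set.ncard_image_of_injective _ (f := fun w => s(v, w)) (fun a b h => Sym2.congr_right.1 h),
    h1, Set.ncard_coe_finset]

theorem ncard_edges {F : Finset (Sym2 V)} (hl : ∀ v, s(v, v) ∉ F) : (gr F).edgeSet.ncard = F.card := by
  have h1 : (gr F).edgeSet = (F : Set (Sym2 V)) := by
    rw [SimpleGraph.edgeSet_fromEdgeSet]
    ext e
    constructor
    · exact fun h => h.1
    · intro h
      refine ⟨h, ?_⟩
      induction e with
      | _ a b =>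
        intro h2
        have h3 : a = b := h2
        subst h3
        exact hl a h
  rw [h1, Set.ncard_coe_finset]

end

/-- `G` with a fractional Hamiltonian cycle `y`: toughness, the closed walk, the subgraph of maximum degree 2, the
2-edge-connected subgraph. -/
theorem hamiltonian_all {n : ℕ} (hn : 3 ≤ n) (D : SimpleDrawing n) {G : Finset (Sym2 (Fin n))}
    {y : Sym2 (Fin n) → ℝ} (hG : Plane (crossT (table D)) G) (h : FracHam G y) :
    ∃ (G : SimpleGraph (Fin n)) (y : Fin n → Fin n → ℝ), D.Plane G ∧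
      ((∀ a b, 0 ≤ y a b) ∧ (∀ a b, y a b = y b a) ∧ ∀ a b, y a b ≠ 0 → G.Adj a b) ∧
      (∀ a, ∑ b, y a b = 2) ∧
      (∀ S : Finset (Fin n), S.Nonempty → S ≠ univ → 2 ≤ ∑ a ∈ S, ∑ b ∈ Sᶜ, y a b) ∧
      (∀ S : Finset (Fin n), S.Nonempty →
        Nat.card (G.induce {v | v ∉ S}).ConnectedComponent ≤ S.card) ∧
      (∀ u, ∃ w : G.Walk u u, (∀ v, 1 ≤ w.support.tail.count v ∧ w.support.tail.count v ≤ 2) ∧
        2 * w.length + 2 ≤ 3 * n) ∧
      (∃ F ≤ G, (∀ v, (F.neighborSet v).ncard ≤ 2) ∧ 8 * n ≤ 9 * F.edgeSet.ncard) ∧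
      ∃ H ≤ G, H.Connected ∧ (∀ e, ¬ H.IsBridge e) ∧ 2 * H.edgeSet.ncard + 2 ≤ 3 * n := by
  have hV : 3 ≤ Fintype.card (Fin n) := by rw [Fintype.card_fin]; exact hn
  have ht := tough h
  refine ⟨gr G, fun a b => y s(a, b), plane_of D hG, ⟨fun a b => h.nonneg _,
    fun a b => congrArg y Sym2.eq_swap, fun a b h1 => adj_of h.loop (by_contra fun h7 => h1 (h.supp _ h7))⟩,
    fun a => ?_, fun S h1 h2 => ?_, fun S h1 => ?_, fun u => ?_, ?_, ?_⟩
  · have h7 := h.vert a
    rw [cutw_vertex (h.supp _ (h.loop a))] at h7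
    exact h7
  · have h3 := h.cut S h1 h2
    rw [cutw_compl] at h3
    exact h3
  · exact comp_le ht h1
  · obtain ⟨w, h1, h2⟩ := H91E.two_walk_of_join h hV (fun O hO => H13W.join h O hO) u
    rw [Fintype.card_fin] at h2
    exact ⟨w, h1, h2⟩
  · obtain ⟨F, h1, h2, h3⟩ := H44Z.two_matching h hV
    have hl : ∀ v, s(v, v) ∉ F := fun v hv => h.loop v (h1 hv)
    rw [Fintype.card_fin] at h3
    refine ⟨gr F, SimpleGraph.fromEdgeSet_mono (coe_subset.2 h1), fun v => ?_, ?_⟩
    · rw [ncard_neighbors hl]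
      exact h2 v
    · rw [ncard_edges hl]
      exact h3
  · obtain ⟨H, h1, h2, h3, h4⟩ := H50E.two_ec h hV
    rw [Fintype.card_fin] at h4
    exact ⟨H, h1, h2, h3, h4⟩

end H97W
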