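import Pool.Agent.Lib.H97W.FinE
import Pool.Agent.Lib.H96H.J1
import Pool.Agent.Lib.H96H.J2
import Pool.Agent.SimpleDraw.Ham
import Pool.Agent.Lib.H56Z.Y

/-!
# H97W, file FinH: Hamiltonian or 3-connected

`G` a set of pairs, `y` a fractional Hamiltonian cycle on `G` which is integral or has only trivial cuts of value 2
(Theorem H, `Pool/Agent/Lib/H96H/H.lean`): in the first case `G` has a Hamiltonian cycle, in the second one `G` is
3-connected and strictly 1-tough.
-/

set_option autoImplicit false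
set_option linter.unusedSectionVars false
set_option linter.unusedSimpArgs false

open H53P SimpleDraw

namespace H97W

open Finset H98P H63F H63L

section

variable {V : Type*} [Fintype V] [DecidableEq V]

/-- The cut of a pair. -/
theorem cutw_pair {y : Sym2 V → ℝ} {a b : V} (hab : a ≠ b) :
    cutw y {a, b} + 2 * y s(a, b) = cutw y {a} + cutw y {b} := by
  have h1 : 2 * y s(a, b) = ∑ e, y e * (if e = s(a, b) then 2 else 0) := by
    rw [sum_eq_single_of_mem s(a, b) (mem_univ _) fun e _ he => by rw [if_neg he, mul_zero], if_pos rfl, mul_comm]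
  rw [h1]
  unfold cutw
  rw [← sum_add_distrib, ← sum_add_distrib]
  refine sum_congr rfl fun e _ => ?_
  rw [← mul_add, ← mul_add]
  congr 1
  induction e using Sym2.ind with
  | _ u v =>
    rw [H13G.px_mk, H13G.px_mk, H13G.px_mk]
    have hba : b ≠ a := hab.symm
    by_cases hu : u = a
    · subst hu
      by_cases hv : v = u
      · subst hv
        simp [hab]
      · by_cases hv' : v = b
        · subst hv'
          simp [hab, hba]
          norm_num
        · simp [hab, hv, hv', Sym2.eq_iff]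
    · by_cases hu' : u = b
      · subst hu'
        by_cases hv : v = u
        · subst hv
          simp [hab, hba, Sym2.eq_iff]
        · by_cases hv' : v = a
          · subst hv'
            simp [hab, hba, Sym2.eq_swap]
            norm_num
          · simp [hab, hba, hv, hv', Sym2.eq_iff]
      · by_cases hv : v = a
        · subst hv
          simp [hab, hba, hu, hu', Sym2.eq_iff]
        · by_cases hv' : v = b
          · subst hv'
            simp [hab, hba, hu, hu', hv, Sym2.eq_iff]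
          · simp [hu, hu', hv, hv', Sym2.eq_iff]

theorem cutw_comp (y : Sym2 V → ℝ) (S : Finset V) : cutw y (univ \ S) = cutw y S := by
  unfold cutw
  refine sum_congr rfl fun e _ => ?_
  congr 1
  induction e using Sym2.ind with
  | _ u v =>
    rw [H13G.px_mk, H13G.px_mk]
    by_cases hu : u ∈ S <;> by_cases hv : v ∈ S <;> simp [hu, hv]

/-- On three vertices all weights are 1. -/
theorem integral_three (hV : Fintype.card V = 3) {G : Finset (Sym2 V)} {y : Sym2 V → ℝ} (h : FracHam G y)
    (e : Sym2 V) : y e = 0 ∨ y e = 1 := by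
  induction e using Sym2.ind with
  | _ a b =>
    by_cases hab : a = b
    · subst hab
      exact Or.inl (h.supp _ (h.loop a))
    · right
      have h1 := cutw_pair (y := y) hab
      have h2 : (univ \ ({a, b} : Finset V)).card = 1 := by
        rw [card_sdiff_of_subset (subset_univ _), card_univ, hV, card_pair hab]
      obtain ⟨c, hc⟩ := card_eq_one.1 h2
      have h3 := cutw_comp y ({a, b} : Finset V)
      rw [hc, h.vert] at h3
      rw [h.vert, h.vert, ← h3] at h1
      linarith

/-- On four vertices: all cuts with two vertices on both sides are larger than 2 only if `G` is complete. -/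
theorem complete_four (hV : Fintype.card V = 4) {G : Finset (Sym2 V)} {y : Sym2 V → ℝ} (h : FracHam G y)
    (hs : ∀ S : Finset V, 2 ≤ S.card → 2 ≤ (univ \ S).card → 2 < cutw y S) {u v : V} (huv : u ≠ v) :
    s(u, v) ∈ G := by
  by_contra hG
  have h0 := h.supp _ hG
  have h2 : (univ \ ({u, v} : Finset V)).card = 2 := by
    rw [card_sdiff_of_subset (subset_univ _), card_univ, hV, card_pair huv]
  obtain ⟨a, b, hab, hc⟩ := card_eq_two.1 h2
  have ha : a ∈ univ \ ({u, v} : Finset V) := by rw [hc]; exact mem_insert_self _ _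
  have hb : b ∈ univ \ ({u, v} : Finset V) := by rw [hc]; exact mem_insert_of_mem (mem_singleton_self _)
  simp only [mem_sdiff, mem_insert, mem_singleton, not_or] at ha hb
  obtain ⟨-, hau, hav⟩ := ha
  obtain ⟨-, hbu, hbv⟩ := hb
  have hall : ∀ w : V, w = u ∨ w = v ∨ w = a ∨ w = b := by
    intro w
    by_cases hw : w ∈ ({u, v} : Finset V)
    · rw [mem_insert, mem_singleton] at hw
      tauto
    · have h3 : w ∈ univ \ ({u, v} : Finset V) := mem_sdiff.2 ⟨mem_univ _, hw⟩
      rw [hc, mem_insert, mem_singleton] at h3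
      tauto
  have hcard : ∀ {p q : V}, p ≠ q → 2 ≤ ({p, q} : Finset V).card ∧ 2 ≤ (univ \ ({p, q} : Finset V)).card := by
    intro p q hpq
    rw [card_sdiff_of_subset (subset_univ _), card_univ, hV, card_pair hpq]
    exact ⟨le_refl _, le_refl _⟩
  have h3 := hs {a, u} (hcard hau).1 (hcard hau).2
  have h4 := hs {a, v} (hcard hav).1 (hcard hav).2
  have h5 : cutw y {a, u} + cutw y {a, v} ≤ cutw y {a} + cutw y {b} := by
    unfold cutw
    rw [← sum_add_distrib, ← sum_add_distrib]
    refine sum_le_sum fun e _ => ?_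
    rw [← mul_add, ← mul_add]
    by_cases he : e = s(u, v)
    · rw [he, h0, zero_mul, zero_mul]
    · refine mul_le_mul_of_nonneg_left ?_ (h.nonneg e)
      induction e using Sym2.ind with
      | _ p q =>
        rw [H13G.px_mk, H13G.px_mk, H13G.px_mk, H13G.px_mk]
        have n1 := huv.symm
        have n2 := hab.symm
        have n3 := Ne.symm hau
        have n4 := Ne.symm hav
        have n5 := Ne.symm hbu
        have n6 := Ne.symm hbv
        rcases hall p with rfl | rfl | rfl | rfl <;> rcases hall q with rfl | rfl | rfl | rfl <;>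
          simp [*] at he ⊢
  rw [h.vert, h.vert] at h5
  linarith

/-- `G` is 3-connected. -/
theorem connected_minus (hV : 4 ≤ Fintype.card V) {G : Finset (Sym2 V)} {y : Sym2 V → ℝ} (h : FracHam G y)
    (hs : ∀ S : Finset V, 2 ≤ S.card → 2 ≤ (univ \ S).card → 2 < cutw y S) {X : Finset V} (hX : X.card ≤ 2) :
    ((gr G).induce {v | v ∉ X}).Connected := by
  classical
  have hne : Nonempty {v | v ∉ X} := by
    by_contra hc
    have h1 : (univ : Finset V) ⊆ X := fun v _ => by
      by_contra hv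
      exact hc ⟨⟨v, hv⟩⟩
    have h2 := card_le_card h1
    rw [card_univ] at h2
    omega
  refine { preconnected := ?_, nonempty := hne }
  rintro ⟨u, hu⟩ ⟨w, hw⟩
  have hu' : u ∉ X := hu
  have hw' : w ∉ X := hw
  by_cases huw : u = w
  · subst huw
    exact SimpleGraph.Reachable.refl _
  rcases Nat.lt_or_ge 4 (Fintype.card V) with hn | hn
  · have h1 : X ⊆ univ \ {u, w} := fun v hv => by
      rw [mem_sdiff, mem_insert, mem_singleton, not_or]
      exact ⟨mem_univ _, fun h1 => hu' (h1 ▸ hv), fun h1 => hw' (h1 ▸ hv)⟩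
    have h2 : 2 ≤ (univ \ ({u, w} : Finset V)).card := by
      rw [card_sdiff_of_subset (subset_univ _), card_univ, card_pair huw]
      omega
    obtain ⟨Y, hY1, hY2, hY3⟩ := exists_subsuperset_card_eq h1 hX h2
    obtain ⟨a, b, -, rfl⟩ := card_eq_two.1 hY3
    have h3 := H96H.three_connected (by omega) h hs a b
      (fun v => ∃ hv : v ∉ X, ((gr G).induce {v | v ∉ X}).Reachable ⟨u, hu⟩ ⟨v, hv⟩) ?_
    · have ha : a ∉ ({u, w} : Finset V) := (mem_sdiff.1 (hY2 (mem_insert_self _ _))).2
      have hb : b ∉ ({u, w} : Finset V) := (mem_sdiff.1 (hY2 (mem_insert_of_mem (mem_singleton_self _)))).2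
      rw [mem_insert, mem_singleton, not_or] at ha hb
      rcases h3 with h3 | h3
      · obtain ⟨_, h4⟩ := h3 w (Ne.symm ha.2) (Ne.symm hb.2)
        exact h4
      · exact absurd ⟨hu, SimpleGraph.Reachable.refl _⟩ (h3 u (Ne.symm ha.1) (Ne.symm hb.1))
    · have key : ∀ p q : V, p ≠ a → p ≠ b → q ≠ a → q ≠ b → s(p, q) ∈ G →
          (∃ hv : p ∉ X, ((gr G).induce {v | v ∉ X}).Reachable ⟨u, hu⟩ ⟨p, hv⟩) →
          ∃ hv : q ∉ X, ((gr G).induce {v | v ∉ X}).Reachable ⟨u, hu⟩ ⟨q, hv⟩ := by
        rintro p q hpa hpb hqa hqb hpq ⟨hp, h4⟩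
        have hq : q ∉ X := fun h5 => by
          have h6 := hY1 h5
          rw [mem_insert, mem_singleton] at h6
          tauto
        refine ⟨hq, h4.trans (SimpleGraph.Adj.reachable ?_)⟩
        exact adj_of h.loop hpq
      intro p q hpa hpb hqa hqb hpq
      exact ⟨key p q hpa hpb hqa hqb hpq, key q p hqa hqb hpa hpb (by rw [Sym2.eq_swap]; exact hpq)⟩
  · apply SimpleGraph.Adj.reachable
    exact adj_of h.loop (complete_four (by omega) h hs huw)

/-- The weights are smaller than 1. -/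
theorem weight_lt (hV : 4 ≤ Fintype.card V) {G : Finset (Sym2 V)} {y : Sym2 V → ℝ} (h : FracHam G y)
    (hs : ∀ S : Finset V, 2 ≤ S.card → 2 ≤ (univ \ S).card → 2 < cutw y S) {a b : V} (hab : a ≠ b) :
    y s(a, b) < 1 := by
  have h1 := cutw_pair (y := y) hab
  have h2 := hs {a, b} (by rw [card_pair hab]) (by
    rw [card_sdiff_of_subset (subset_univ _), card_univ, card_pair hab]
    omega)
  rw [h.vert, h.vert] at h1
  linarith

/-- Strictly 1-tough. -/
theorem tough_strict {G : Finset (Sym2 V)} {y : Sym2 V → ℝ} (h : FracHam G y) (hp : ∀ e ∈ G, 0 < y e)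
    (hs : ∀ S : Finset V, 2 ≤ S.card → 2 ≤ (univ \ S).card → 2 < cutw y S) {X : Finset V} (hX : 2 ≤ X.card)
    {a b : V} (hab : s(a, b) ∈ G) (habX : a ∈ X ↔ b ∈ X) {c : V → V}
    (hc : ∀ u, u ∉ X → ∀ v, v ∉ X → s(u, v) ∈ G → c u = c v) :
    ((univ \ X).image c).card + 1 ≤ X.card := by
  have hne : a ≠ b := fun h1 => h.loop a (by rw [← h1] at hab; exact hab)
  have key := fun e => H56Z.key h.nonneg h.supp h.loop hc ((univ \ X).image c) e
  have h1 : ∑ i ∈ (univ \ X).image c, cutw y (H56Z.cls X c i) ≤ ∑ v ∈ X, cutw y {v} := by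
    unfold cutw
    rw [sum_comm, sum_comm (s := X)]
    exact sum_le_sum fun e _ => key e
  have hcl : ∀ i ∈ (univ \ X).image c, 2 ≤ cutw y (H56Z.cls X c i) := by
    intro i hi
    obtain ⟨v, hv, rfl⟩ := mem_image.1 hi
    have hvX : v ∉ X := (mem_sdiff.1 hv).2
    apply h.cut
    · exact ⟨v, H56Z.mem_cls.2 ⟨hvX, rfl⟩⟩
    · intro heq
      obtain ⟨s, hsX⟩ : X.Nonempty := card_pos.1 (by omega)
      have h2 : s ∈ H56Z.cls X c (c v) := heq ▸ mem_univ s
      exact (H56Z.mem_cls.1 h2).1 hsX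
  have h2 : ∑ _i ∈ (univ \ X).image c, (2 : ℝ) ≤ ∑ i ∈ (univ \ X).image c, cutw y (H56Z.cls X c i) :=
    sum_le_sum hcl
  have h3 : ∑ v ∈ X, cutw y {v} = 2 * (X.card : ℝ) := by
    rw [sum_congr rfl (fun v _ => h.vert v), sum_const, nsmul_eq_mul, mul_comm]
  have h4 : ∑ _i ∈ (univ \ X).image c, (2 : ℝ) < ∑ v ∈ X, cutw y {v} := by
    by_cases haX : a ∈ X
    · refine lt_of_le_of_lt h2 ?_
      unfold cutw
      rw [sum_comm, sum_comm (s := X)]
      refine sum_lt_sum (fun e _ => key e) ⟨s(a, b), mem_univ _, ?_⟩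
      have h5 : ∑ i ∈ (univ \ X).image c, y s(a, b) * px s(a, b) (H56Z.cls X c i) = 0 := by
        refine sum_eq_zero fun i _ => ?_
        rw [H13G.px_mk, if_pos, mul_zero]
        rw [H56Z.mem_cls, H56Z.mem_cls]
        exact ⟨fun h6 => absurd haX h6.1, fun h6 => absurd (habX.1 haX) h6.1⟩
      rw [h5]
      refine sum_pos' (fun v _ => mul_nonneg (h.nonneg _) (H13G.px_nonneg _ _)) ⟨a, haX, ?_⟩
      rw [H13G.px_mk, if_neg (by simp [hne.symm]), mul_one]
      exact hp _ hab
    · have hbX : b ∉ X := fun h5 => haX (habX.2 h5)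
      refine lt_of_lt_of_le (sum_lt_sum hcl ⟨c a, mem_image_of_mem c (mem_sdiff.2 ⟨mem_univ _, haX⟩), ?_⟩) h1
      apply hs
      · have h5 : ({a, b} : Finset V) ⊆ H56Z.cls X c (c a) := by
          intro v hv
          rw [mem_insert, mem_singleton] at hv
          rw [H56Z.mem_cls]
          rcases hv with rfl | rfl
          · exact ⟨haX, rfl⟩
          · exact ⟨hbX, (hc a haX _ hbX hab).symm⟩
        have h6 := card_le_card h5
        rwa [card_pair hne] at h6
      · refine le_trans hX (card_le_card fun v hv => ?_)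
        rw [mem_sdiff, H56Z.mem_cls]
        exact ⟨mem_univ _, fun h5 => h5.1 hv⟩
  rw [sum_const, nsmul_eq_mul, h3] at h4
  have h5 : (((univ \ X).image c).card : ℝ) < (X.card : ℝ) := by linarith
  exact_mod_cast h5

/-- the number of components of `G - S`, pointwise form -/
theorem comp_le' {G : Finset (Sym2 V)} {k : ℕ} {S : Finset V}
    (ht : ∀ c : V → V, (∀ u, u ∉ S → ∀ v, v ∉ S → s(u, v) ∈ G → c u = c v) → ((univ \ S).image c).card ≤ k) :
    Nat.card ((gr G).induce {v | v ∉ S}).ConnectedComponent ≤ k := by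
  classical
  obtain ⟨H, hH⟩ : ∃ H, H = (gr G).induce {v | v ∉ S} := ⟨_, rfl⟩
  rw [← hH]
  have key := ht (fun v => if h : v ∉ S then (Quot.out (H.connectedComponentMk ⟨v, h⟩)).1 else v) ?_
  · refine le_trans ?_ key
    have h1 : Set.range (fun C : H.ConnectedComponent => (Quot.out C).1) ⊆
        (((univ \ S).image fun v => if h : v ∉ S then (Quot.out (H.connectedComponentMk ⟨v, h⟩)).1
          else v : Finset V) : Set V) := by
      rintro _ ⟨C, rfl⟩
      rw [mem_coe, mem_image]
      refine ⟨(Quot.out C).1, mem_sdiff.2 ⟨mem_univ _, (Quot.out C).2⟩, ?_⟩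
      have h2 : (Quot.out C).1 ∉ S := (Quot.out C).2
      simp only [h2, not_false_eq_true, dif_pos]
      have h3 : H.connectedComponentMk ⟨(Quot.out C).1, h2⟩ = C := by
        have : (⟨(Quot.out C).1, h2⟩ : {v | v ∉ S}) = Quot.out C := Subtype.ext rfl
        rw [this]
        exact Quot.out_eq C
      rw [h3]
    have h2 : Function.Injective fun C : H.ConnectedComponent => (Quot.out C).1 := by
      intro C C' hC
      have h3 : Quot.out C = Quot.out C' := Subtype.ext hC
      rw [← Quot.out_eq C, h3, Quot.out_eq]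
    rw [← Set.ncard_coe_finset, ← Nat.card_coe_set_eq]
    calc Nat.card H.ConnectedComponent
        = Nat.card (Set.range fun C : H.ConnectedComponent => (Quot.out C).1) :=
          (Nat.card_range_of_injective h2).symm
      _ ≤ _ := by
          rw [Nat.card_coe_set_eq, Nat.card_coe_set_eq]
          exact Set.ncard_le_ncard h1 (Set.toFinite _)
  · intro u hu v hv huv
    simp only [hu, hv, not_false_eq_true, dif_pos]
    by_cases h : u = v
    · subst h
      rfl
    · have h1 : H.connectedComponentMk ⟨u, hu⟩ = H.connectedComponentMk ⟨v, hv⟩ := by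
        apply SimpleGraph.ConnectedComponent.sound
        apply SimpleGraph.Adj.reachable
        rw [hH, SimpleGraph.comap_adj]
        change (gr G).Adj u v
        rw [SimpleGraph.fromEdgeSet_adj]
        exact ⟨mem_coe.2 huv, h⟩
      rw [h1]

/-- An integral fractional Hamiltonian cycle is a Hamiltonian cycle. -/
theorem ham_walk (hV : 3 ≤ Fintype.card V) {G : Finset (Sym2 V)} {y : Sym2 V → ℝ} (h : FracHam G y)
    (hi : ∀ e, y e = 0 ∨ y e = 1) : ∃ (a : V) (c : (gr G).Walk a a), c.IsHamiltonianCycle := by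
  obtain ⟨f, hf, h1, h2⟩ := H96H.ham_cycle hV h hi
  obtain ⟨m, hm⟩ : ∃ m, Fintype.card V = m + 1 := ⟨Fintype.card V - 1, by omega⟩
  have hb : Function.Bijective f := by
    rw [Fintype.bijective_iff_injective_and_card]
    exact ⟨hf, Fintype.card_fin _⟩
  refine ham_of_list (List.ofFn f) (by rw [List.length_ofFn]; exact hV) (List.nodup_ofFn.2 hf)
    (fun v => ?_) ?_ (a := f ⟨0, by omega⟩) (b := f ⟨Fintype.card V - 1, by omega⟩) ?_ ?_ (adj_of h.loop h2)
  · obtain ⟨i, rfl⟩ := hb.2 v
    exact List.mem_ofFn.2 ⟨i, rfl⟩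
  · rw [List.isChain_ofFn]
    intro i hi'
    exact adj_of h.loop (h1 ⟨i, by omega⟩ hi')
  · rw [List.head?_eq_getElem?, List.getElem?_ofFn, dif_pos (by omega)]
  · rw [List.getLast?_eq_getElem?, List.getElem?_ofFn, List.length_ofFn, dif_pos (by omega)]

end

/-- Hamiltonian or 3-connected, language of simple drawings. -/
theorem hamiltonian_or {n : ℕ} (hn : 3 ≤ n) (D : SimpleDrawing n) {G : Finset (Sym2 (Fin n))}
    {y : Sym2 (Fin n) → ℝ} (hG : Plane (crossT (table D)) G) (h : FracHam G y)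
    (hd : 4 ≤ n → (∀ e ∈ G, 0 < y e) ∧ ((∀ e, y e = 0 ∨ y e = 1) ∨
      ∀ S : Finset (Fin n), 2 ≤ S.card → 2 ≤ (univ \ S).card → 2 < cutw y S)) :
    (∃ G : SimpleGraph (Fin n), D.Plane G ∧ ∃ (a : Fin n) (c : G.Walk a a), c.IsHamiltonianCycle) ∨
    ∃ (G : SimpleGraph (Fin n)) (y : Fin n → Fin n → ℝ), D.Plane G ∧
      ((∀ a b, 0 ≤ y a b) ∧ (∀ a b, y a b = y b a) ∧ ∀ a b, y a b ≠ 0 → G.Adj a b) ∧
      (∀ X : Finset (Fin n), X.card ≤ 2 → (G.induce {v | v ∉ X}).Connected) ∧
      (∀ a b, G.Adj a b → 0 < y a b ∧ y a b < 1) ∧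
      (∀ a, ∑ b, y a b = 2) ∧
      (∀ S : Finset (Fin n), 2 ≤ S.card → 2 ≤ Sᶜ.card → 2 < ∑ a ∈ S, ∑ b ∈ Sᶜ, y a b) ∧
      (∀ X : Finset (Fin n), 2 ≤ X.card → (∃ a b, G.Adj a b ∧ (a ∈ X ↔ b ∈ X)) →
        Nat.card (G.induce {v | v ∉ X}).ConnectedComponent < X.card) ∧
      (∀ u, ∃ w : G.Walk u u, (∀ v, 1 ≤ w.support.tail.count v ∧ w.support.tail.count v ≤ 2) ∧
        2 * w.length + 2 ≤ 3 * n) ∧
      (∃ F ≤ G, (∀ v, (F.neighborSet v).ncard ≤ 2) ∧ 8 * n ≤ 9 * F.edgeSet.ncard) ∧
      ∃ H ≤ G, H.Connected ∧ (∀ e, ¬ H.IsBridge e) ∧ 2 * H.edgeSet.ncard + 2 ≤ 3 * n := by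
  have hV : 3 ≤ Fintype.card (Fin n) := by rw [Fintype.card_fin]; exact hn
  by_cases hi : ∀ e, y e = 0 ∨ y e = 1
  · exact Or.inl ⟨gr G, plane_of D hG, ham_walk hV h hi⟩
  right
  have h4 : 4 ≤ n := by
    by_contra h3
    exact hi (integral_three (by rw [Fintype.card_fin]; omega) h)
  have hV4 : 4 ≤ Fintype.card (Fin n) := by rw [Fintype.card_fin]; exact h4
  obtain ⟨hp, hd⟩ := hd h4
  have hs := hd.resolve_left hi
  refine ⟨gr G, fun a b => y s(a, b), plane_of D hG, ⟨fun a b => h.nonneg _,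
    fun a b => congrArg y Sym2.eq_swap, fun a b h1 => adj_of h.loop (by_contra fun h7 => h1 (h.supp _ h7))⟩,
    fun X hX => connected_minus hV4 h hs hX, fun a b hab => ?_, fun a => ?_, fun S h1 h2 => ?_,
    fun X hX hab => ?_, fun u => ?_, ?_, ?_⟩
  · rw [SimpleGraph.fromEdgeSet_adj] at hab
    exact ⟨hp _ hab.1, weight_lt hV4 h hs hab.2⟩
  · have h7 := h.vert a
    rw [cutw_vertex (h.supp _ (h.loop a))] at h7
    exact h7
  · have h3 := hs S h1 (by rw [← compl_eq_univ_sdiff]; exact h2)
    rw [cutw_compl] at h3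
    exact h3
  · obtain ⟨a, b, hab, habX⟩ := hab
    rw [SimpleGraph.fromEdgeSet_adj] at hab
    have h1 := comp_le' (G := G) (k := X.card - 1) (S := X) fun c hc => by
      have h2 := tough_strict h hp hs hX hab.1 habX hc
      omega
    omega
  · obtain ⟨w, h1, h2⟩ := H91E.two_walk_of_join h hV (fun O hO => H13W.join h O hO) u
    rw [Fintype.card_fin] at h2
    exact ⟨w, h1, h2⟩
  · obtain ⟨F, h1, h2, h3⟩ := H44Z.two_matching h hV
    have hl : ∀ v, s(v, v) ∉ F := fun v hv => h.loop v (h1 hv)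
    rw [Fintype.card_fin] at h3
    refine ⟨gr F, SimpleGraph.fromEdgeSet_mono (coe_subset.2 h1), fun v => ?_, ?_⟩
    · rw [ncard_neighbors hl]
      exact h2 v
    · rw [ncard_edges hl]
      exact h3
  · obtain ⟨H, h1, h2, h3, h4⟩ := H50E.two_ec h hV
    rw [Fintype.card_fin] at h4
    exact ⟨H, h1, h2, h3, h4⟩

end H97W
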